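import Pool.Agent.Lib.BalShift.Final

/-!
# MP_55fadc_co, Q1: balanced shifting of complexes embeddable in the `2 d`-sphere

All definitions used in the statement are in `Pool/Agent/Lib/BalShift/Defs.lean`, where the theorem
`SComplex.mem_shift_iff_greedy` also shows that `SComplex.shift` is the set selected by the greedy
procedure of the problem file.
-/

open BalShift MvPolynomial

namespace Pool.Agent.Results.MP_55fadc_co.BalancedShifting

/-- Let `K` be a finite simplicial complex whose vertices are coloured with `d + 1` colours, and
which is topologically embeddable in the sphere of dimension `2 d`. (Balancedness of `K`, that is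
`K.Balanced color`, is the case of the question; it is not needed as a hypothesis.) Let the order
of the vertices be `(2, …, 2)`-admissible. Then the balanced shifting of `K` does not contain
`[3]^{*(d+1)}`: neither for coefficients `Θ` which are algebraically independent over `ℚ`, nor for
any real coefficients `Θ` outside of the zero set of a certain non zero polynomial. -/
theorem result {V : Type*} [Fintype V] [LinearOrder V] {d : ℕ} (color : V → Fin (d + 1))
    (K : SComplex V) (hemb : K.EmbedsInSphere (2 * d)) (hadm : Admissible color 2) :
    (∀ Θ : V → V → ℝ, AlgebraicIndependent ℚ (fun p : Ent color => Θ p.1.1 p.1.2) →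
      ¬ ContainsJoin d (K.shift color Θ)) ∧
    ∃ P : MvPolynomial (Ent color) ℚ, P ≠ 0 ∧ ∀ Θ : V → V → ℝ,
      aeval (fun p : Ent color => Θ p.1.1 p.1.2) P ≠ 0 → ¬ ContainsJoin d (K.shift color Θ) :=
  main color K hemb hadm

end Pool.Agent.Results.MP_55fadc_co.BalancedShifting
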